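import Pool.Agent.H.MP_15e1ec_an.D

set_option autoImplicit false

namespace Pool.Agent.Results.MP_15e1ec_an.Sep

open Set Filter Topology

theorem result : ∃ (X : Type) (_ : NormedAddCommGroup X) (_ : NormedSpace ℝ X)
    (_ : CompleteSpace X) (e : ℕ → X) (f : ℕ → X →L[ℝ] ℝ),
    (∀ i j, f i (e j) = if i = j then 1 else 0) ∧
    (∀ x, Tendsto (fun N => ∑ k ∈ Finset.range N, f k x • e k) atTop (𝓝 x)) ∧
    (∀ k, ‖e k‖ = 1) ∧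
    (∀ T : X →L[ℝ] X, (∃ δ : ℝ, 0 < δ ∧ ∀ k, δ ≤ |f k (T (e k))|) →
      ∃ R S : X →L[ℝ] X, S ∘L T ∘L R = ContinuousLinearMap.id ℝ X) ∧
    ¬ ∀ δ : ℝ, 0 < δ → ∃ K : ℝ, 1 ≤ K ∧ ∀ T : X →L[ℝ] X, (∀ k, δ ≤ |f k (T (e k))|) →
      ∀ ε : ℝ, 0 < ε → ∃ R S : X →L[ℝ] X,
        S ∘L T ∘L R = ContinuousLinearMap.id ℝ X ∧ ‖R‖ * ‖S‖ ≤ K + ε := by
  have h := H.MP_15e1ec_an.ts
  refine ⟨H.MP_15e1ec_an.Y, inferInstance, inferInstance, inferInstance, _, _, h.bio, h.tend,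
    h.e_norm, fun T ⟨δ, hδ, hT⟩ => h.main T hδ hT, fun hc => ?_⟩
  obtain ⟨K, hK, hc⟩ := hc 1 one_pos
  obtain ⟨A, h1, h2⟩ := h.nonunif (K := K + 1) (by linarith)
  obtain ⟨R, S, h3, h4⟩ := hc A (fun k => by rw [h1, abs_one]) 1 one_pos
  exact (h2 R S h3).not_ge h4

end Pool.Agent.Results.MP_15e1ec_an.Sep
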